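import Pool.Agent.Helper868.STS

namespace Pool.Agent.Results.MP_95c763_co.AsymptoticSizes

open Filter Topology

/-- A 2-(v,3,1) design (Steiner triple system) with point set `X` and block collection `B`:
every block is a 3-subset of `X`, and every two distinct points of `X` lie in exactly one block. -/
def IsSTS {V : Type} [DecidableEq V] (X : Finset V) (B : Finset (Finset V)) : Prop :=
  (∀ b ∈ B, b ⊆ X ∧ b.card = 3) ∧ ∀ x ∈ X, ∀ y ∈ X, x ≠ y → ∃! b, b ∈ B ∧ x ∈ b ∧ y ∈ b

/-- `S` is a defining set of the design with point set `X` and block collection `D`: `S` is a set of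
blocks of `D`, and `D` is the only Steiner triple system on `X` whose block collection contains
`S`. -/
def IsDefiningSet {V : Type} [DecidableEq V] (X : Finset V) (D S : Finset (Finset V)) : Prop :=
  S ⊆ D ∧ ∀ B, IsSTS X B → S ⊆ B → B = D

/-- The smallest size of a defining set of the design with point set `X` and blocks `D`. -/
noncomputable def minDefiningSize {V : Type} [DecidableEq V] (X : Finset V)
    (D : Finset (Finset V)) : ℕ :=
  sInf {k | ∃ S, IsDefiningSet X D S ∧ S.card = k}

/-- The points of `PG(n,2)`: the nonzero vectors of the space of dimension `n+1` over the field with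
two elements. -/
def projPoints (n : ℕ) : Finset (Fin (n + 1) → ZMod 2) := Finset.univ.filter fun v => v ≠ 0

/-- The blocks of `P_n`: the triples `{x, y, x+y}` with `x`, `y` distinct points of `PG(n,2)`. -/
def projLines (n : ℕ) : Finset (Finset (Fin (n + 1) → ZMod 2)) :=
  Finset.univ.filter fun b => ∃ x ∈ projPoints n, ∃ y ∈ projPoints n, x ≠ y ∧ b = {x, y, x + y}

/-- The points of `AG(n,3)`: all vectors of the space of dimension `n` over the field with three
elements. -/
def affPoints (n : ℕ) : Finset (Fin n → ZMod 3) := Finset.univ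

/-- The blocks of `A_n`: the triples `{x, y, z}` of distinct vectors with `x + y + z = 0`. -/
def affLines (n : ℕ) : Finset (Finset (Fin n → ZMod 3)) :=
  Finset.univ.filter fun b =>
    ∃ x y z, x ≠ y ∧ x ≠ z ∧ y ≠ z ∧ x + y + z = 0 ∧ b = {x, y, z}

lemma two_mul_vec {m : ℕ} (x : Fin m → ZMod 2) : x + x = 0 := by
  funext i
  exact CharTwo.add_self_eq_zero (x i)

lemma neg_vec {m : ℕ} (x : Fin m → ZMod 2) : -x = x := by
  rw [neg_eq_iff_add_eq_zero]
  exact two_mul_vec x

lemma mem_projPoints {n : ℕ} {v : Fin (n + 1) → ZMod 2} : v ∈ projPoints n ↔ v ≠ 0 := by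
  simp [projPoints]

lemma closed_projPoints (n : ℕ) : Pool.Agent.Helper868.STS.Closed (projPoints n) := by
  intro x hx y hy hxy
  rw [mem_projPoints] at hx hy ⊢
  rw [neg_vec]
  refine ⟨fun h => hxy ?_, fun h => hy ?_, fun h => hx ?_⟩
  · rw [← neg_vec y]
    exact eq_neg_of_add_eq_zero_left h
  · simpa using h
  · simpa using h

lemma projLines_eq (n : ℕ) : projLines n = Pool.Agent.Helper868.STS.zeroTriples (projPoints n) := by
  ext b
  simp only [projLines, Finset.mem_filter, Finset.mem_univ, true_and]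
  constructor
  · rintro ⟨x, hx, y, hy, hxy, rfl⟩
    have := Pool.Agent.Helper868.STS.zero_triple_of_pair (closed_projPoints n) hx hy hxy
    rwa [neg_vec] at this
  · intro hb
    obtain ⟨h1, h2, -⟩ := Pool.Agent.Helper868.STS.mem_zeroTriples.1 hb
    obtain ⟨x, y, z, hxy, -, -, hbe⟩ := Finset.card_eq_three.1 h2
    have hx : x ∈ b := by rw [hbe]; simp
    have hy : y ∈ b := by rw [hbe]; simp
    refine ⟨x, h1 hx, y, h1 hy, hxy, ?_⟩
    have := Pool.Agent.Helper868.STS.zero_triple_eq hb hx hy hxy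
    rwa [neg_vec] at this

/-- Sanity check: the points and lines of `PG(n,2)` form a Steiner triple system. -/
theorem projLines_isSTS (n : ℕ) : IsSTS (projPoints n) (projLines n) := by
  rw [projLines_eq]
  exact Pool.Agent.Helper868.STS.zeroTriples_isSTS (closed_projPoints n)

lemma card_projPoints (n : ℕ) : (projPoints n).card = 2 ^ (n + 1) - 1 := by
  have h : projPoints n = Finset.univ.erase 0 := by
    ext v
    simp [mem_projPoints]
  rw [h, Finset.card_erase_of_mem (Finset.mem_univ _), Finset.card_univ, Fintype.card_fun, ZMod.card,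
    Fintype.card_fin]

/-- Sanity check: the number of blocks of `P_n`. -/
theorem card_projLines (n : ℕ) :
    ((projLines n).card : ℝ) = ((2:ℝ) ^ (n + 1) - 1) * ((2:ℝ) ^ (n + 1) - 2) / 6 := by
  have h := Pool.Agent.Helper868.STS.six_card (closed_projPoints n)
  rw [← projLines_eq, card_projPoints] at h
  have h1 : 2 ≤ 2 ^ (n + 1) := by
    calc 2 = 2 ^ 1 := (pow_one 2).symm
      _ ≤ 2 ^ (n + 1) := Nat.pow_le_pow_right (by norm_num) (by omega)
  obtain ⟨u, hu⟩ : ∃ u, 2 ^ (n + 1) = u + 2 := ⟨2 ^ (n + 1) - 2, by omega⟩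
  have hur : (2:ℝ) ^ (n + 1) = u + 2 := by exact_mod_cast hu
  rw [hu] at h
  have h2 : 6 * (projLines n).card = (u + 1) * u := by
    rw [h]
    have e : u + 2 - 1 = u + 1 := by omega
    rw [e]
    have e2 : (u + 1) * (u + 1) = (u + 1) * u + (u + 1) := by ring
    omega
  rw [hur]
  have h3 : (6:ℝ) * (projLines n).card = (u + 1) * u := by exact_mod_cast h2
  linarith

/-- The whole block collection is a defining set. -/
lemma whole_defining {V : Type} [DecidableEq V] {X : Finset V} {D : Finset (Finset V)}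
    (hD : IsSTS X D) : IsDefiningSet X D D := by
  refine ⟨Finset.Subset.refl _, fun B hB hDB => ?_⟩
  apply Finset.Subset.antisymm _ hDB
  intro b hb
  obtain ⟨h1, h2⟩ := hB.1 b hb
  obtain ⟨x, y, z, hxy, -, -, hbe⟩ := Finset.card_eq_three.1 h2
  have hx : x ∈ b := by rw [hbe]; simp
  have hy : y ∈ b := by rw [hbe]; simp
  obtain ⟨c, ⟨hc1, hc2, hc3⟩, -⟩ := hD.2 x (h1 hx) y (h1 hy) hxy
  have := (hB.2 x (h1 hx) y (h1 hy) hxy).unique ⟨hb, hx, hy⟩ ⟨hDB hc1, hc2, hc3⟩
  rw [this]
  exact hc1

lemma exists_min {V : Type} [DecidableEq V] {X : Finset V} {D : Finset (Finset V)}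
    (hD : IsSTS X D) : ∃ S, IsDefiningSet X D S ∧ S.card = minDefiningSize X D := by
  have h : {k | ∃ S, IsDefiningSet X D S ∧ S.card = k}.Nonempty :=
    ⟨_, D, whole_defining hD, rfl⟩
  exact Nat.sInf_mem h

lemma min_le {V : Type} [DecidableEq V] {X : Finset V} {D : Finset (Finset V)}
    (hD : IsSTS X D) : minDefiningSize X D ≤ D.card :=
  Nat.sInf_le ⟨D, whole_defining hD, rfl⟩

lemma closed_affPoints (n : ℕ) : Pool.Agent.Helper868.STS.Closed (affPoints n) := by
  intro x _ y _ hxy
  have h3 : ∀ v : Fin n → ZMod 3, v + v + v = 0 := by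
    intro v
    funext i
    have : ∀ a : ZMod 3, a + a + a = 0 := by decide
    exact this (v i)
  refine ⟨Finset.mem_univ _, fun h => hxy ?_, fun h => hxy ?_⟩
  · have h1 : x + y + x = 0 := by
      nth_rewrite 2 [← h]
      abel
    have h2 := h3 x
    have h4 : x + y + x - (x + x + x) = 0 := by rw [h1, h2]; simp
    have h5 : y - x = 0 := by
      rw [← h4]; abel
    exact (sub_eq_zero.1 h5).symm
  · have h1 : x + y + y = 0 := by
      nth_rewrite 2 [← h]
      abel
    have h2 := h3 y
    have h4 : x + y + y - (y + y + y) = 0 := by rw [h1, h2]; simp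
    have h5 : x - y = 0 := by
      rw [← h4]; abel
    exact sub_eq_zero.1 h5

lemma affLines_eq (n : ℕ) : affLines n = Pool.Agent.Helper868.STS.zeroTriples (affPoints n) := by
  ext b
  simp only [affLines, Finset.mem_filter, Finset.mem_univ, true_and]
  constructor
  · rintro ⟨x, y, z, hxy, hxz, hyz, hs, rfl⟩
    obtain ⟨h1, h2⟩ := Pool.Agent.Helper868.STS.triple_sum hxy hxz.symm hyz.symm
    exact Pool.Agent.Helper868.STS.mem_zeroTriples.2 ⟨Finset.subset_univ _, h1, by rw [h2, hs]⟩
  · intro hb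
    obtain ⟨-, h2, h3⟩ := Pool.Agent.Helper868.STS.mem_zeroTriples.1 hb
    obtain ⟨x, y, z, hxy, hxz, hyz, hbe⟩ := Finset.card_eq_three.1 h2
    refine ⟨x, y, z, hxy, hxz, hyz, ?_, hbe⟩
    rw [← h3, hbe, (Pool.Agent.Helper868.STS.triple_sum hxy hxz.symm hyz.symm).2]

/-- Sanity check: the points and lines of `AG(n,3)` form a Steiner triple system. -/
theorem affLines_isSTS (n : ℕ) : IsSTS (affPoints n) (affLines n) := by
  rw [affLines_eq]
  exact Pool.Agent.Helper868.STS.zeroTriples_isSTS (closed_affPoints n)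

/-- Sanity check: the number of blocks of `A_n`. -/
theorem card_affLines (n : ℕ) :
    ((affLines n).card : ℝ) = (3:ℝ) ^ n * ((3:ℝ) ^ n - 1) / 6 := by
  have h := Pool.Agent.Helper868.STS.six_card (closed_affPoints n)
  rw [← affLines_eq] at h
  have hc : (affPoints n).card = 3 ^ n := by
    unfold affPoints
    rw [Finset.card_univ, Fintype.card_fun, ZMod.card, Fintype.card_fin]
  rw [hc] at h
  have h1 : 1 ≤ 3 ^ n := Nat.one_le_pow _ _ (by norm_num)
  obtain ⟨u, hu⟩ : ∃ u, 3 ^ n = u + 1 := ⟨3 ^ n - 1, by omega⟩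
  have hur : (3:ℝ) ^ n = u + 1 := by exact_mod_cast hu
  rw [hu] at h
  have h2 : 6 * (affLines n).card = (u + 1) * u := by
    rw [h]
    have e2 : (u + 1) * (u + 1) = (u + 1) * u + (u + 1) := by ring
    omega
  rw [hur]
  have h3 : (6:ℝ) * (affLines n).card = (u + 1) * u := by exact_mod_cast h2
  linarith

/-- From the bound on complements of defining sets to the asymptotic statement. -/
lemma ratio_bound {V : Type} [DecidableEq V] {X : Finset V} {D : Finset (Finset V)} (hD : IsSTS X D)
    (ε : ℝ) (hpos : (0:ℝ) < D.card)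
    (h : ∀ S, IsDefiningSet X D S → ((D \ S).card : ℝ) < ε * D.card) :
    dist ((minDefiningSize X D : ℝ) / D.card) 1 < ε := by
  obtain ⟨S, hS, hSc⟩ := exists_min hD
  have h1 := h S hS
  have h2 : ((D \ S).card : ℝ) = D.card - S.card := by
    rw [Finset.card_sdiff_of_subset hS.1, Nat.cast_sub (Finset.card_le_card hS.1)]
  rw [h2, hSc] at h1
  have hle : (minDefiningSize X D : ℝ) ≤ D.card := by exact_mod_cast min_le hD
  have hεpos : 0 < ε := by
    by_contra hcon
    push Not at hcon
    have : ε * (D.card : ℝ) ≤ 0 := mul_nonpos_of_nonpos_of_nonneg hcon hpos.le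
    linarith
  rw [Real.dist_eq, abs_sub_lt_iff]
  constructor
  · have : (minDefiningSize X D : ℝ) / D.card ≤ 1 := by
      rw [div_le_one hpos]
      exact hle
    linarith
  · have : 1 - ε < (minDefiningSize X D : ℝ) / D.card := by
      rw [lt_div_iff₀ hpos]
      nlinarith
    linarith

theorem proj_part : Tendsto (fun n : ℕ => (minDefiningSize (projPoints n) (projLines n) : ℝ) /
    (projLines n).card) atTop (𝓝 1) := by
  rw [Metric.tendsto_atTop]
  intro ε hε
  obtain ⟨N, hN⟩ := Pool.Agent.Helper868.STS.defining_large 2 (by norm_num) (ε / 4) (by positivity)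
  refine ⟨max N 1, fun n hn => ?_⟩
  have hnN : N ≤ n + 1 := (le_max_left N 1).trans (hn.trans (Nat.le_succ n))
  have hn1 : 1 ≤ n := (le_max_right N 1).trans hn
  have hu : (4:ℝ) ≤ (2:ℝ) ^ (n + 1) := by
    calc (4:ℝ) = 2 ^ 2 := by norm_num
      _ ≤ 2 ^ (n + 1) := pow_le_pow_right₀ (by norm_num) (by omega)
  have hpow : ((2:ℕ):ℝ) ^ (2 * (n + 1)) = ((2:ℝ) ^ (n + 1)) ^ 2 := by
    rw [← pow_mul]
    push_cast
    ring_nf
  have hc := card_projLines n
  set u : ℝ := (2:ℝ) ^ (n + 1) with hudef
  have hb : 0 < (u - 1) * (u - 2) / 6 := by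
    have := mul_pos (show 0 < u - 1 by linarith) (show 0 < u - 2 by linarith)
    linarith
  have hb2 : u ^ 2 / 4 ≤ (u - 1) * (u - 2) := by nlinarith
  refine ratio_bound (projLines_isSTS n) ε (by rw [hc]; exact hb) fun S hS => ?_
  have hS' : Pool.Agent.Helper868.STS.IsDefiningSet (projPoints n)
      (Pool.Agent.Helper868.STS.zeroTriples (projPoints n)) S := by
    rw [← projLines_eq]
    exact hS
  have h1 := hN (n + 1) hnN (projPoints n) (closed_projPoints n) S hS'
  rw [← projLines_eq, hpow] at h1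
  rw [hc]
  nlinarith

theorem aff_part : Tendsto (fun n : ℕ => (minDefiningSize (affPoints n) (affLines n) : ℝ) /
    (affLines n).card) atTop (𝓝 1) := by
  rw [Metric.tendsto_atTop]
  intro ε hε
  obtain ⟨N, hN⟩ := Pool.Agent.Helper868.STS.defining_large 3 (by norm_num) (ε / 4) (by positivity)
  refine ⟨max N 1, fun n hn => ?_⟩
  have hnN : N ≤ n := (le_max_left N 1).trans hn
  have hn1 : 1 ≤ n := (le_max_right N 1).trans hn
  have hu : (3:ℝ) ≤ (3:ℝ) ^ n := by
    calc (3:ℝ) = 3 ^ 1 := by norm_num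
      _ ≤ 3 ^ n := pow_le_pow_right₀ (by norm_num) hn1
  have hpow : ((3:ℕ):ℝ) ^ (2 * n) = ((3:ℝ) ^ n) ^ 2 := by
    rw [← pow_mul]
    push_cast
    ring_nf
  have hc := card_affLines n
  set u : ℝ := (3:ℝ) ^ n with hudef
  have hb : 0 < u * (u - 1) / 6 := by
    have := mul_pos (show 0 < u by linarith) (show 0 < u - 1 by linarith)
    linarith
  have hb2 : u ^ 2 / 4 ≤ u * (u - 1) := by nlinarith
  refine ratio_bound (affLines_isSTS n) ε (by rw [hc]; exact hb) fun S hS => ?_
  have hS' : Pool.Agent.Helper868.STS.IsDefiningSet (affPoints n)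
      (Pool.Agent.Helper868.STS.zeroTriples (affPoints n)) S := by
    rw [← affLines_eq]
    exact hS
  have h1 := hN n hnN (affPoints n) (closed_affPoints n) S hS'
  rw [← affLines_eq, hpow] at h1
  rw [hc]
  nlinarith

/-- **Asymptotic sizes.** The smallest defining sets of `P_n` and of `A_n` contain asymptotically all
blocks: the smallest size is `(1 - o(1))` times the number of blocks,
`(2^(n+1)-1)(2^(n+1)-2)/6` and `3^n(3^n-1)/6` respectively. -/
theorem result :
    Tendsto (fun n : ℕ => (minDefiningSize (projPoints n) (projLines n) : ℝ) /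
      (projLines n).card) atTop (𝓝 1) ∧
    Tendsto (fun n : ℕ => (minDefiningSize (affPoints n) (affLines n) : ℝ) /
      (affLines n).card) atTop (𝓝 1) :=
  ⟨proj_part, aff_part⟩

end Pool.Agent.Results.MP_95c763_co.AsymptoticSizes
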